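import Pool.Agent.E8helper28.Gi.Ult
import Pool.Agent.E8helper70.Dys.Fin

/-! The normalised gaps between the zeros of `ζ` interpolate each other: up to a mean square error
`C / log (K / m)`, the distance between the zeros numbered `n + K` and `n + K + m` is a fixed linear
function of the gaps numbered `n + k`, `k < 2 K`, outside that stretch. -/

open Filter

namespace Pool.Agent.E8helper28.Variants.GapInterpolation

/-- multiplicity of `s` as a zero of the Riemann zeta function (order of vanishing at `s`) -/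
noncomputable def zmult (s : ℂ) : ℕ := analyticOrderNatAt riemannZeta s

/-- the number of nontrivial zeros of `ζ` with ordinate in `(0, t]`, with multiplicity -/
noncomputable def NZ (t : ℝ) : ℕ :=
  ∑ᶠ s ∈ {s : ℂ | riemannZeta s = 0 ∧ 0 < s.re ∧ s.re < 1 ∧ 0 < s.im ∧ s.im ≤ t}, zmult s

/-- for `n ≥ 1`: `γ_n`, the `n`-th positive ordinate of a nontrivial zero of `ζ`, the ordinates
being listed in nondecreasing order and repeated according to multiplicity -/
noncomputable def ord (n : ℕ) : ℝ := sInf {t : ℝ | n ≤ NZ t}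

/-- the normalised ordinate `(1 / 2π) γ_n log γ_n` -/
noncomputable def nord (n : ℕ) : ℝ := 1 / (2 * Real.pi) * ord n * Real.log (ord n)

/-- the normalised gap `δ_n` between the `n`-th and the `(n+1)`-st zero -/
noncomputable def gap (n : ℕ) : ℝ := nord (n + 1) - nord n

/-- On the Riemann hypothesis there is `C` such that for all `m, J ≥ 1`, with `K = 2^(J+2) m`, there
are weights `0 ≤ w k ≤ 1`, `w k = 0` for `K ≤ k < K + m`, such that for all large `N` the mean over
`n ≤ N` of the square of
`(nord (n + K + m) - nord (n + K)) - (m - ∑_{k < 2 K} w k (gap (n + k) - 1))` is at most `C / J`. -/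
theorem result (RH : RiemannHypothesis) :
    ∃ C : ℝ, 0 < C ∧ ∀ m : ℕ, 1 ≤ m → ∀ J : ℕ, 1 ≤ J → ∃ w : ℕ → ℝ,
      (∀ k, 0 ≤ w k ∧ w k ≤ 1) ∧
      (∀ k, 2 ^ (J + 2) * m ≤ k → k < 2 ^ (J + 2) * m + m → w k = 0) ∧
      ∀ᶠ N : ℕ in atTop,
        (1 / N : ℝ) * ∑ n ∈ Finset.Icc 1 N,
          ((nord (n + 2 ^ (J + 2) * m + m) - nord (n + 2 ^ (J + 2) * m)) -
            (m - ∑ k ∈ Finset.range (2 * (2 ^ (J + 2) * m)), w k * (gap (n + k) - 1))) ^ 2 ≤
          C / J := by
  have hRHs : SP.RHs := by
    intro s h1 h2 h0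
    apply RH s h0
    · rintro ⟨k, hk⟩
      have := congrArg Complex.re hk
      simp at this
      have hk0 : (0 : ℝ) ≤ k := Nat.cast_nonneg k
      linarith
    · intro h; rw [h] at h2; simp at h2
  have h2 : ∀ n : ℕ, LG.dlt n = gap n := by
    intro n
    have e : ∀ m : ℕ, SG.ord m = ord m := fun m => rfl
    unfold LG.dlt gap nord
    rw [e, e]
    ring
  obtain ⟨D, _, hD⟩ := E8helper70.Dys.grow hRHs
  have hx : ∀ n : ℕ, 1 ≤ n → |gap n - 1| ≤ D * (1 + Real.log n) := by
    intro n hn
    rw [← h2]
    exact hD n hn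
  have h3 : ∀ N k : ℕ, E8helper70.Dys.cv N k = E8helper28.Gi.cx (fun n => gap n - 1) N k := by
    intro N k
    unfold E8helper70.Dys.cv E8helper28.Gi.cx
    simp only [h2]
  have hL : E8helper28.Gi.LawX (fun n => gap n - 1) E8helper70.Dys.LG := by
    intro G hG hc he
    have h := E8helper70.Dys.law RH hRHs G hG hc he
    simp only [h3] at h
    exact h
  obtain ⟨C, hC, h⟩ := E8helper28.Gi.ult_main hx hL
  refine ⟨C, hC, fun m hm J hJ => ?_⟩
  obtain ⟨K, hK⟩ : ∃ K : ℕ, K = 2 ^ (J + 2) * m := ⟨_, rfl⟩
  have h4 := h m hm J hJ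
  rw [← hK] at h4 ⊢
  refine ⟨fun k => if K ≤ k ∧ k < K + m then 0 else E8helper28.Gi.W m J ((k : ℤ) - K), ?_, ?_, ?_⟩
  · intro k
    dsimp only
    split_ifs
    · exact ⟨le_rfl, zero_le_one⟩
    · exact ⟨E8helper28.Gi.W_nonneg hm _, E8helper28.Gi.W_le hm hJ _⟩
  · intro k h5 h6
    dsimp only
    rw [if_pos ⟨h5, h6⟩]
  · filter_upwards [h4] with N hN
    unfold E8helper28.Gi.msq at hN
    refine le_trans (le_of_eq ?_) hN
    congr 1
    refine Finset.sum_congr rfl fun n _ => ?_
    congr 1
    have hKm : m ≤ K := by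
      rw [hK]
      have : 1 ≤ 2 ^ (J + 2) := Nat.one_le_two_pow
      nlinarith
    have e1 : ∀ k : ℕ, E8helper28.Gi.W m J ((k : ℤ) - K) * (gap (n + k) - 1) =
        (if K ≤ k ∧ k < K + m then (0 : ℝ) else E8helper28.Gi.W m J ((k : ℤ) - K)) * (gap (n + k) - 1) +
          (if K ≤ k ∧ k < K + m then gap (n + k) - 1 else 0) := by
      intro k
      split_ifs with h5
      · rw [E8helper28.Gi.W_one hm hJ (by omega) (by omega), one_mul, zero_mul, zero_add]
      · rw [add_zero]
    simp only [e1, Finset.sum_add_distrib]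
    have e2 : ∑ k ∈ Finset.range (2 * K), (if K ≤ k ∧ k < K + m then gap (n + k) - 1 else 0) =
        nord (n + K + m) - nord (n + K) - m := by
      rw [← Finset.sum_filter]
      have e3 : (Finset.range (2 * K)).filter (fun k => K ≤ k ∧ k < K + m) =
          (Finset.range m).map (addLeftEmbedding K) := by
        ext k
        simp only [Finset.mem_filter, Finset.mem_range, Finset.mem_map, addLeftEmbedding_apply]
        constructor
        · rintro ⟨h5, h6, h7⟩
          exact ⟨k - K, by omega, by omega⟩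
        · rintro ⟨a, ha, rfl⟩
          omega
      rw [e3, Finset.sum_map]
      simp only [addLeftEmbedding_apply, ← add_assoc]
      rw [Finset.sum_sub_distrib]
      have e4 : ∀ r : ℕ, ∑ x ∈ Finset.range r, gap (n + K + x) = nord (n + K + r) - nord (n + K) := by
        intro r
        induction r with
        | zero => simp
        | succ r ih =>
          rw [Finset.sum_range_succ, ih]
          unfold gap
          rw [show n + K + (r + 1) = n + K + r + 1 by ring]
          ring
      rw [e4]
      simp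
    rw [e2]
    ring

end Pool.Agent.E8helper28.Variants.GapInterpolation
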